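import Pool.Agent.Q34.GB
import Mathlib.Tactic.IntervalCases

set_option autoImplicit false

namespace Pool.Agent.Results.MP_f96d9d_nt.QOneFailsAtSeven

open Pool.Agent.Q34

/-- the generalized central trinomial coefficient `T_n(b,c)` -/
def T (b c : ℤ) (n : ℕ) : ℤ :=
  ∑ j ∈ Finset.range (n / 2 + 1),
    (n.choose (2 * j) : ℤ) * ((2 * j).choose j : ℤ) * b ^ (n - 2 * j) * c ^ j

/-- `∑_{k<p} T_k(18,49)^3 / m^k` -/
def A (m : ℚ) (p : ℕ) : ℚ := ∑ k ∈ Finset.range p, ((T 18 49 k : ℤ) : ℚ) ^ 3 / m ^ k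

/-- The assertion of Q1 for the prime `p`: `(2/p) A_1(p)` and `A_2(p)` are both congruent modulo
`p^2` to `4x^2 - 2p` when `p ≡ 1 (mod 4)`, `p = x^2 + y^2`, `x` odd, `y` even, and to `0` when
`p ≡ 3 (mod 4)`. -/
def Posed (p : ℕ) : Prop :=
  (∀ x y : ℤ, p % 4 = 1 → (p : ℤ) = x ^ 2 + y ^ 2 → Odd x → Even y →
    Cong p 2 (jacobiSym 2 p * A 512 p) (4 * x ^ 2 - 2 * p) ∧
    Cong p 2 (A 4096 p) (4 * x ^ 2 - 2 * p)) ∧
  (p % 4 = 3 → Cong p 2 (jacobiSym 2 p * A 512 p) 0 ∧ Cong p 2 (A 4096 p) 0)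

/-- Q1 is false at `p = 7`: neither sum is divisible by `49`. -/
theorem result : ¬ ∀ p : ℕ, p.Prime → 3 < p → Posed p := by
  intro h
  have h7 := ((h 7 (by norm_num) (by norm_num)).2 (by norm_num)).2
  refine not_cong (by norm_num) ?_ h7
  decide +kernel

end Pool.Agent.Results.MP_f96d9d_nt.QOneFailsAtSeven
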