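import Pool.Agent.Q34.GB
import Mathlib.Tactic.IntervalCases

set_option autoImplicit false

namespace Pool.Agent.Results.MP_f96d9d_nt.QTwoFailsAtSeven

open Pool.Agent.Q34

/-- the generalized central trinomial coefficient `T_n(b,c)` -/
def T (b c : ℤ) (n : ℕ) : ℤ :=
  ∑ j ∈ Finset.range (n / 2 + 1),
    (n.choose (2 * j) : ℤ) * ((2 * j).choose j : ℤ) * b ^ (n - 2 * j) * c ^ j

/-- `∑_{k<p} T_k(10,49)^3 / m^k` -/
def B (m : ℚ) (p : ℕ) : ℚ := ∑ k ∈ Finset.range p, ((T 10 49 k : ℤ) : ℚ) ^ 3 / m ^ k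

/-- The assertion of Q2 for the prime `p`: `(-1/p) B_1(p)` and `(6/p) B_2(p)` are both congruent
modulo `p^2` to `4x^2 - 2p` when `p ≡ 1, 3 (mod 8)`, `p = x^2 + 2 y^2`, and to `0` when
`p ≡ 5, 7 (mod 8)`. -/
def Posed (p : ℕ) : Prop :=
  (∀ x y : ℤ, (p % 8 = 1 ∨ p % 8 = 3) → (p : ℤ) = x ^ 2 + 2 * y ^ 2 →
    Cong p 2 (jacobiSym (-1) p * B (-512) p) (4 * x ^ 2 - 2 * p) ∧
    Cong p 2 (jacobiSym 6 p * B 1728 p) (4 * x ^ 2 - 2 * p)) ∧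
  ((p % 8 = 5 ∨ p % 8 = 7) →
    Cong p 2 (jacobiSym (-1) p * B (-512) p) 0 ∧ Cong p 2 (jacobiSym 6 p * B 1728 p) 0)

/-- Q2 is false at `p = 7`. -/
theorem result : ¬ ∀ p : ℕ, p.Prime → 3 < p → Posed p := by
  intro h
  have h7 := ((h 7 (by norm_num) (by norm_num)).2 (by norm_num)).2
  have e : jacobiSym 6 7 = -1 := by norm_num
  rw [e] at h7
  refine not_cong (by norm_num) ?_ h7
  decide +kernel

end Pool.Agent.Results.MP_f96d9d_nt.QTwoFailsAtSeven
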